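import Pool.Agent.Helper10.TQ.Defs

/-!
# Project OPG: the conclusion of GEO over the explicit field for two quadrics
-/

universe u v

namespace Pool.Agent.OPG

open MvPolynomial Pool.Agent.BT

/-- The conclusion of GEO over the explicit field, for two quadrics; `ρ` fixes moreover everything
which is algebraic over `Q₂`, which contains `κ` and the coordinates `x (i, e)`, `e ≠ 0`. -/
def Geo1Q' (κ E : Type u) [Field κ] [Field E] [Algebra κ E] (T : E) (N m : ℕ) {t : ℕ}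
    (ds : Fin t → ℕ) {U : Type} [Fintype U] {e : U → ℕ} (w : Fin (m + 2) → E)
    (h : ∀ u, MonV (N + 2) (e u) → E) : Prop :=
    ∃ (S₁ : Type u) (_ : Field S₁) (_ : Algebra (FFV E (N + 2) 2 m ds) S₁) (n M : ℕ)
      (G : Fin 4 → MonV (N + 2) n → algebraicClosure (FFV E (N + 2) 2 m ds) S₁)
      (W W₂ : MonV (N + 2) (1 * n) → algebraicClosure (FFV E (N + 2) 2 m ds) S₁)
      (H H₂ : MonV (N + 2) M → algebraicClosure (FFV E (N + 2) 2 m ds) S₁)
      (H' H₂' : Fin t ⊕ U → MonV (N + 2) M → algebraicClosure (FFV E (N + 2) 2 m ds) S₁)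
      (D D' : Fin 4 → MonV (N + 2) M → algebraicClosure (FFV E (N + 2) 2 m ds) S₁)
      (D'' : Fin 4 → Fin t ⊕ U → MonV (N + 2) M → algebraicClosure (FFV E (N + 2) 2 m ds) S₁)
      (c : Fin 4 → Fin (M + 1) → algebraicClosure (FFV E (N + 2) 2 m ds) S₁) (τ ρ : S₁ ≃+* S₁)
      (Q Q₂ : Subfield S₁),
      n ≤ M ∧ 1 ≤ M ∧ IsAlgClosed S₁ ∧
      -- the identities
      pol (G 0) * pol (G 1) = C (algebraMap (FFV E (N + 2) 2 m ds)
        (algebraicClosure (FFV E (N + 2) 2 m ds) S₁) (cF (N + 2) 2 m ds T)) * pol W ^ 2 +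
        comb (fun a => algebraMap (FFV E (N + 2) 2 m ds) (algebraicClosure (FFV E (N + 2) 2 m ds) S₁) (fF w a))
          (fun u a => algebraMap (FFV E (N + 2) 2 m ds) (algebraicClosure (FFV E (N + 2) 2 m ds) S₁) (relF w h u a))
          H H' ∧
      pol (G 2) * pol (G 3) = pol W₂ ^ 2 +
        comb (fun a => algebraMap (FFV E (N + 2) 2 m ds) (algebraicClosure (FFV E (N + 2) 2 m ds) S₁) (fF w a))
          (fun u a => algebraMap (FFV E (N + 2) 2 m ds) (algebraicClosure (FFV E (N + 2) 2 m ds) S₁) (relF w h u a))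
          H₂ H₂' ∧
      FinX (fF (ds := ds) w : MonV (N + 2) 2 → FFV E (N + 2) 2 m ds) (relF w h) M ∧
      Cop (G 0) (G 1)
        (fun a => algebraMap (FFV E (N + 2) 2 m ds) (algebraicClosure (FFV E (N + 2) 2 m ds) S₁) (fF w a))
        (fun u a => algebraMap (FFV E (N + 2) 2 m ds) (algebraicClosure (FFV E (N + 2) 2 m ds) S₁) (relF w h u a)) M ∧
      Cop (G 2) (G 3)
        (fun a => algebraMap (FFV E (N + 2) 2 m ds) (algebraicClosure (FFV E (N + 2) 2 m ds) S₁) (fF w a))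
        (fun u a => algebraMap (FFV E (N + 2) 2 m ds) (algebraicClosure (FFV E (N + 2) 2 m ds) S₁) (relF w h u a)) M ∧
      (∀ i, c i ≠ 0 ∧ pol (D i) * pol (G i) +
        comb (fun a => algebraMap (FFV E (N + 2) 2 m ds) (algebraicClosure (FFV E (N + 2) 2 m ds) S₁) (fF w a))
          (fun u a => algebraMap (FFV E (N + 2) 2 m ds) (algebraicClosure (FFV E (N + 2) 2 m ds) S₁) (relF w h u a))
          (D' i) (D'' i) = polX (c i)) ∧
      -- the automorphism `τ`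
      (∀ y : FFV E (N + 2) 2 m ds, τ (algebraMap _ S₁ y) = algebraMap _ S₁ y) ∧
      (∀ y : κ, algebraMap (FFV E (N + 2) 2 m ds) S₁ (cF (N + 2) 2 m ds (algebraMap κ E y)) ∈ Q) ∧
      (∀ i, algebraMap (FFV E (N + 2) 2 m ds) S₁ (xF i) ∈ Q) ∧
      (∀ y, IsAlgebraic Q y → τ y = y) ∧
      (∀ i a, τ (G i a : S₁) = G i a) ∧ (∀ a, τ (W a : S₁) = W a) ∧
      (∀ α : S₁, α ^ 2 = algebraMap (FFV E (N + 2) 2 m ds) S₁ (cF (N + 2) 2 m ds T) → τ α ≠ α) ∧
      -- the transposition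
      (∀ y : FFV E (N + 2) 2 m ds, ρ (algebraMap _ S₁ y) = algebraMap _ S₁ y) ∧
      (∀ a, ρ (G 0 a : S₁) = G 1 a) ∧ (∀ a, ρ (G 2 a : S₁) = G 2 a) ∧
      (∀ y, τ (ρ y) = ρ (τ y)) ∧
      (∀ y : κ, algebraMap (FFV E (N + 2) 2 m ds) S₁ (cF (N + 2) 2 m ds (algebraMap κ E y)) ∈ Q₂) ∧
      (∀ (i : IxV (N + 2) 2 ds) (e : Fin (m + 1)),
        algebraMap (FFV E (N + 2) 2 m ds) S₁ (xF (i, e.succ)) ∈ Q₂) ∧
      ∀ y, IsAlgebraic Q₂ y → ρ y = y

end Pool.Agent.OPG
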