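import Pool.Agent.Helper10.SX.Hahn

/-!
# Project OPG: iterated Puiseux series, automorphisms over an intermediate field `κ'`
-/

universe u

namespace Pool.Agent.OPG

open HahnSeries Pool.Agent.PC Pool.Agent.SX

/-- **HAHN.**  The field `A` of Puiseux series over `κ₁` in `t`, the field `S₁` of Puiseux series over
`A` in `ε`, the twist `τ` and the coefficientwise automorphisms.  The lifts of the automorphisms over
the intermediate field `κ'` fix everything which is algebraic over `Q₂`, and `Q₂` contains the power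
series over `κ'`. -/
theorem exists_hahn' (κ κ' κ₁ : Type u) [Field κ] [Field κ'] [Field κ₁] [Algebra κ κ']
    [Algebra κ' κ₁] [Algebra κ κ₁] [IsScalarTower κ κ' κ₁] [IsAlgClosed κ] [IsAlgClosed κ']
    [IsAlgClosed κ₁] [CharZero κ] {p : ℕ} (hp : 0 < p) :
    ∃ (A S₁ : Type u) (_ : Field A) (_ : Field S₁) (cA : κ₁ →+* A) (lA : HahnSeries ℤ κ →+* A)
      (ψ : PowerSeries A →+* S₁) (τA : A ≃+* A) (τS : S₁ ≃+* S₁) (Q₂ : Subfield S₁),
      IsAlgClosed S₁ ∧ Function.Injective ψ ∧ (∀ c : κ, lA (C c) = cA (algebraMap κ κ₁ c)) ∧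
      (∀ {I : Type} [Fintype I] (l : I → HahnSeries ℤ κ) (m : I → κ₁), LinearIndependent κ m →
        ∑ i, lA (l i) * cA (m i) = 0 → ∀ i, l i = 0) ∧
      (∀ c, τA (cA c) = cA c) ∧ (∀ l, τA (lA l) = lA l) ∧
      (∃ α : A, α ^ p = lA (single 1 1) ∧ ∀ c : ℕ, ¬ p ∣ c → τA (α ^ c) ≠ α ^ c) ∧
      (∀ z, τS (ψ z) = ψ (PowerSeries.map (τA : A →+* A) z)) ∧
      (∃ Q : Subfield S₁, (∀ z : PowerSeries κ₁, ψ (PowerSeries.map cA z) ∈ Q) ∧
        ∀ y, IsAlgebraic Q y → τS y = y) ∧
      (∀ z : PowerSeries κ', ψ (PowerSeries.map cA (PowerSeries.map (algebraMap κ' κ₁) z)) ∈ Q₂) ∧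
      ∀ ρ : κ₁ ≃+* κ₁, (∀ c : κ', ρ (algebraMap κ' κ₁ c) = algebraMap κ' κ₁ c) →
        ∃ (ρA : A ≃+* A) (ρS : S₁ ≃+* S₁), (∀ c, ρA (cA c) = cA (ρ c)) ∧
          (∀ l, ρA (lA l) = lA l) ∧
          (∀ z, ρS (ψ z) = ψ (PowerSeries.map (ρA : A →+* A) z)) ∧
          (∀ y, τS (ρS y) = ρS (τS y)) ∧
          ∀ y, IsAlgebraic Q₂ y → ρS y = y := by
  classical
  have hκ₁0 : CharZero κ₁ := charZero_of_injective_algebraMap (algebraMap κ κ₁).injective
  have hκ'0 : CharZero κ' := charZero_of_injective_algebraMap (algebraMap κ κ').injective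
  obtain ⟨Pk, hPk, hPkcl⟩ := exists_puis κ'
  have hPkac : IsAlgClosed Pk := hPkcl inferInstance inferInstance
  obtain ⟨P, hP, hPcl⟩ := exists_puis κ₁
  have hPac : IsAlgClosed P := hPcl inferInstance inferInstance
  have hH0 : CharZero (HahnSeries ℚ κ₁) := charZero_of_injective_ringHom
    (f := (C : κ₁ →+* HahnSeries ℚ κ₁)) C_injective
  have hP0 : CharZero P := inferInstance
  obtain ⟨P', hP', hPcl'⟩ := exists_puis P
  have hPac' : IsAlgClosed P' := hPcl' hPac hP0
  -- integral exponents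
  have hint : ∀ x : HahnSeries ℚ κ₁, (∀ a, x.coeff a ≠ 0 → ∃ n : ℤ, a = n) → x ∈ P := by
    intro x hx
    rw [hP]
    refine ⟨1, one_pos, fun a ha => ?_⟩
    obtain ⟨n, rfl⟩ := hx a ha
    exact ⟨n, by simp⟩
  have hint' : ∀ x : HahnSeries ℚ P, (∀ a, x.coeff a ≠ 0 → ∃ n : ℤ, a = n) → x ∈ P' := by
    intro x hx
    rw [hP']
    refine ⟨1, one_pos, fun a ha => ?_⟩
    obtain ⟨n, rfl⟩ := hx a ha
    exact ⟨n, by simp⟩
  have hCcoeff : ∀ {K : Type u} [Field K] (c : K) (a : ℚ), (C c : HahnSeries ℚ K).coeff a ≠ 0 →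
      ∃ n : ℤ, a = n := by
    intro K _ c a ha
    refine ⟨0, ?_⟩
    by_contra h
    apply ha
    rw [C_apply, coeff_single_of_ne]
    simpa using h
  let cA : κ₁ →+* P := (C : κ₁ →+* HahnSeries ℚ κ₁).codRestrict P.toSubring
    (fun c => hint _ (hCcoeff c))
  have hcA : ∀ c, ((cA c : P) : HahnSeries ℚ κ₁) = C c := fun _ => rfl
  let lA : HahnSeries ℤ κ →+* P := ((hmapHom (algebraMap κ κ₁)).comp (laur κ)).codRestrict
    P.toSubring (fun l => hint _ (fun a ha => by
      change algebraMap κ κ₁ ((laur κ l).coeff a) ≠ 0 at ha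
      exact laur_coeff_ne (fun h => ha (by rw [h, map_zero]))))
  have hlA : ∀ l a, ((lA l : P) : HahnSeries ℚ κ₁).coeff a =
      algebraMap κ κ₁ ((laur κ l).coeff a) := fun _ _ => rfl
  have hlAne : ∀ l a, ((lA l : P) : HahnSeries ℚ κ₁).coeff a ≠ 0 → ∃ n : ℤ, a = n := by
    intro l a ha
    rw [hlA] at ha
    exact laur_coeff_ne (fun h => ha (by rw [h, map_zero]))
  let ψ : PowerSeries P →+* P' := (ofPowerSeries ℚ P).codRestrict P'.toSubring
    (fun z => hint' _ (fun a ha => by
      have h1 : a ∈ (ofPowerSeries ℚ P z).support := ha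
      obtain ⟨n, -, hn⟩ := support_embDomain_subset h1
      exact ⟨n, by rw [← hn]; simp⟩))
  have hψ : ∀ z, ((ψ z : P') : HahnSeries ℚ P) = ofPowerSeries ℚ P z := fun _ => rfl
  have hofne : ∀ (z : PowerSeries P) (a : ℚ), (ofPowerSeries ℚ P z).coeff a ≠ 0 →
      ∃ n : ℕ, a = n := by
    intro z a ha
    have h1 : a ∈ (ofPowerSeries ℚ P z).support := ha
    obtain ⟨n, -, hn⟩ := support_embDomain_subset h1
    exact ⟨n, by rw [← hn]; simp⟩
  -- coefficientwise automorphisms commute with the embedding of power series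
  have hofmap : ∀ (f : P →+* P) (z : PowerSeries P) (a : ℚ),
      (ofPowerSeries ℚ P (PowerSeries.map f z)).coeff a = f ((ofPowerSeries ℚ P z).coeff a) := by
    intro f z a
    by_cases ha : ∃ n : ℕ, a = n
    · obtain ⟨n, rfl⟩ := ha
      rw [ofPowerSeries_apply_coeff, ofPowerSeries_apply_coeff, PowerSeries.coeff_map]
    · have h1 : (ofPowerSeries ℚ P (PowerSeries.map f z)).coeff a = 0 := by
        by_contra h
        exact ha (hofne _ _ h)
      have h2 : (ofPowerSeries ℚ P z).coeff a = 0 := by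
        by_contra h
        exact ha (hofne _ _ h)
      rw [h1, h2, map_zero]
  -- the twist
  obtain ⟨χ, hχ0, hχadd, hχ1, hχp, hχN⟩ := SX.exists_chi (κ := κ)
  obtain ⟨Rt, hRt⟩ := exists_twist (κ := κ₁) (fun a => algebraMap κ κ₁ (χ a))
    (by rw [hχ0, map_one]) (fun a b => by rw [hχadd, map_mul])
  have hχne : ∀ a, algebraMap κ κ₁ (χ a) ≠ 0 := by
    intro a h
    have h1 := hχadd a (-a)
    rw [add_neg_cancel, hχ0] at h1
    rw [map_eq_zero] at h
    rw [h, zero_mul] at h1
    exact one_ne_zero h1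
  have hχint : ∀ n : ℤ, χ n = 1 := by
    intro n
    induction n using Int.induction_on with
    | zero => simpa using hχ0
    | succ n ih =>
      have h1 : (((n : ℤ) + 1 : ℤ) : ℚ) = ((n : ℤ) : ℚ) + 1 := by push_cast; ring
      rw [h1, hχadd, ih, hχ1, one_mul]
    | pred n ih =>
      have h1 : (((-(n : ℤ)) : ℤ) : ℚ) = (((-(n : ℤ) - 1 : ℤ)) : ℚ) + 1 := by push_cast; ring
      have h2 := hχadd (((-(n : ℤ) - 1 : ℤ)) : ℚ) 1
      rw [← h1, ih, hχ1, mul_one] at h2
      exact h2.symm
  obtain ⟨τA, hτA⟩ := exists_restr hP Rt (fun x a => by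
    rw [hRt]
    exact ⟨fun h h0 => h (by rw [h0, mul_zero]), fun h => mul_ne_zero (hχne a) h⟩)
  obtain ⟨Rτ, hRτ⟩ := exists_hmap τA
  obtain ⟨τS, hτS⟩ := exists_restr hP' Rτ (fun x a => by
    rw [hRτ]
    exact (map_ne_zero_iff _ τA.injective))
  -- fixed elements
  have hτc : ∀ c, τA (cA c) = cA c := by
    intro c
    apply Subtype.ext
    rw [hτA]
    ext a
    rw [hRt, hcA]
    by_cases ha : a = 0
    · rw [ha, hχ0, map_one, one_mul]
    · rw [C_apply, coeff_single_of_ne ha, mul_zero]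
  have hτl : ∀ l, τA (lA l) = lA l := by
    intro l
    apply Subtype.ext
    rw [hτA]
    ext a
    rw [hRt]
    by_cases ha : ((lA l : P) : HahnSeries ℚ κ₁).coeff a = 0
    · rw [ha, mul_zero]
    · obtain ⟨n, rfl⟩ := hlAne l a ha
      rw [hχint, map_one, one_mul]
  -- the Puiseux series over `κ'`
  let J' : Pk →+* P' := ((hmapHom (cA.comp (algebraMap κ' κ₁))).comp Pk.subtype).codRestrict
    P'.toSubring (fun x => by
      change hmapHom (cA.comp (algebraMap κ' κ₁)) (x : HahnSeries ℚ κ') ∈ P'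
      rw [hP']
      obtain ⟨N, hN, hx⟩ := (hPk _).1 x.2
      refine ⟨N, hN, fun a ha => hx a ?_⟩
      intro h0
      apply ha
      change cA (algebraMap κ' κ₁ ((x : HahnSeries ℚ κ').coeff a)) = 0
      rw [h0, map_zero, map_zero])
  refine ⟨P, P', inferInstance, inferInstance, cA, lA, ψ, τA, τS, J'.fieldRange, hPac', ?_, ?_, ?_,
    hτc, hτl, ?_, ?_, ?_, ?_, ?_⟩
  · intro z z' hz
    exact ofPowerSeries_injective (congrArg (fun y : P' => (y : HahnSeries ℚ P)) hz)
  · intro c
    apply Subtype.ext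
    change hmapHom (algebraMap κ κ₁) (laur κ (C c)) = C (algebraMap κ κ₁ c)
    rw [laur_C]
    ext a
    rw [hmapHom_coeff]
    by_cases ha : a = 0
    · rw [ha, C_apply, C_apply, coeff_single_same, coeff_single_same]
    · rw [C_apply, C_apply, coeff_single_of_ne ha, coeff_single_of_ne ha, map_zero]
  · intro I _ l m hm hsum i
    ext n
    have h1 : ∑ i, (l i).coeff n • m i = 0 := by
      have h2 := congrArg (fun y : P => (y : HahnSeries ℚ κ₁).coeff (n : ℚ)) hsum
      simp only [AddSubmonoidClass.coe_finsetSum] at h2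
      rw [HahnSeries.coeff_sum] at h2
      simp only [ZeroMemClass.coe_zero, HahnSeries.coeff_zero] at h2
      rw [← h2]
      refine Finset.sum_congr rfl fun j _ => ?_
      rw [MulMemClass.coe_mul, hcA, mul_comm, C_mul_eq_smul, coeff_smul, hlA, laur_coeff,
        smul_eq_mul, Algebra.smul_def, mul_comm]
    have h3 := Fintype.linearIndependent_iff.1 hm (fun i => (l i).coeff n) h1 i
    rw [h3, coeff_zero]
  · -- the root
    have hα : (single (1 / (p : ℚ)) 1 : HahnSeries ℚ κ₁) ∈ P := by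
      rw [hP]
      refine ⟨p, hp, fun a ha => ⟨1, ?_⟩⟩
      have h1 : a = 1 / (p : ℚ) := by
        by_contra h
        exact ha (coeff_single_of_ne h)
      rw [h1, one_div, inv_mul_cancel₀]
      · simp
      · exact_mod_cast hp.ne'
    refine ⟨⟨_, hα⟩, ?_, ?_⟩
    · apply Subtype.ext
      change (single (1 / (p : ℚ)) 1 : HahnSeries ℚ κ₁) ^ p = hmapHom (algebraMap κ κ₁)
        (laur κ (single 1 1))
      rw [laur_single, single_pow, one_pow, nsmul_eq_mul, mul_one_div_cancel]
      · ext a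
        rw [hmapHom_coeff]
        by_cases ha : a = 1
        · rw [ha, coeff_single_same, coeff_single_same, map_one]
        · rw [coeff_single_of_ne ha, coeff_single_of_ne ha, map_zero]
      · exact_mod_cast hp.ne'
    · intro c hc h
      have h0 : ∀ c : ℕ, (single (1 / (p : ℚ)) 1 : HahnSeries ℚ κ₁) ^ c = single ((c : ℚ) / p) 1 := by
        intro c
        rw [single_pow, one_pow, nsmul_eq_mul, mul_one_div]
      have h1 := congrArg (fun y : P => (y : HahnSeries ℚ κ₁).coeff ((c : ℚ) / p)) h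
      simp only [hτA, hRt, SubmonoidClass.coe_pow, h0, coeff_single_same, mul_one] at h1
      have h2 : χ ((c : ℚ) / p) = 1 := by
        apply (algebraMap κ κ₁).injective
        rw [h1, map_one]
      obtain ⟨n, hn⟩ := hχp _ h2
      have hp0 : (p : ℚ) ≠ 0 := by exact_mod_cast hp.ne'
      rw [div_eq_iff hp0] at hn
      have h3 : (c : ℤ) = n * p := by exact_mod_cast hn
      exact hc (Int.natCast_dvd_natCast.1 ⟨n, by rw [h3, mul_comm]⟩)
  · intro z
    apply Subtype.ext
    rw [hτS, hψ, hψ]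
    ext1
    funext a
    rw [hRτ, hofmap]
    rfl
  · -- the algebraic closure of the power series with constant coefficients
    let J : P →+* P' := ((hmapHom cA).comp P.subtype).codRestrict P'.toSubring (fun x => by
      change hmapHom cA (x : HahnSeries ℚ κ₁) ∈ P'
      rw [hP']
      obtain ⟨N, hN, hx⟩ := (hP _).1 x.2
      refine ⟨N, hN, fun a ha => hx a ?_⟩
      intro h0
      apply ha
      change cA ((x : HahnSeries ℚ κ₁).coeff a) = 0
      rw [h0, map_zero])
    refine ⟨J.fieldRange, ?_, ?_⟩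
    · intro z
      have hz : (ofPowerSeries ℚ κ₁ z) ∈ P := by
        refine hint _ fun a ha => ?_
        have h1 : a ∈ (ofPowerSeries ℚ κ₁ z).support := ha
        obtain ⟨n, -, hn⟩ := support_embDomain_subset h1
        exact ⟨n, by rw [← hn]; simp⟩
      refine ⟨⟨_, hz⟩, ?_⟩
      apply Subtype.ext
      change hmapHom cA (ofPowerSeries ℚ κ₁ z) = ofPowerSeries ℚ P (PowerSeries.map cA z)
      ext1
      funext a
      change cA ((ofPowerSeries ℚ κ₁ z).coeff a) = _
      by_cases ha : ∃ n : ℕ, a = n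
      · obtain ⟨n, rfl⟩ := ha
        rw [ofPowerSeries_apply_coeff, ofPowerSeries_apply_coeff, PowerSeries.coeff_map]
      · have h1 : (ofPowerSeries ℚ P (PowerSeries.map cA z)).coeff a = 0 := by
          by_contra h
          exact ha (hofne _ _ h)
        have h2 : (ofPowerSeries ℚ κ₁ z).coeff a = 0 := by
          by_contra h
          apply ha
          have h3 : a ∈ (ofPowerSeries ℚ κ₁ z).support := h
          obtain ⟨n, -, hn⟩ := support_embDomain_subset h3
          exact ⟨n, by rw [← hn]; simp⟩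
        rw [h1, h2, map_zero]
    · intro y hy
      obtain ⟨x, rfl⟩ := mem_range_of_alg J hy
      apply Subtype.ext
      rw [hτS]
      ext1
      funext a
      rw [hRτ]
      exact hτc _
  · -- the power series over `κ'`
    intro z
    have hz : (ofPowerSeries ℚ κ' z) ∈ Pk := by
      rw [hPk]
      refine ⟨1, one_pos, fun a ha => ?_⟩
      have h1 : a ∈ (ofPowerSeries ℚ κ' z).support := ha
      obtain ⟨n, -, hn⟩ := support_embDomain_subset h1
      exact ⟨n, by rw [← hn]; simp⟩
    refine ⟨⟨_, hz⟩, ?_⟩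
    apply Subtype.ext
    change hmapHom (cA.comp (algebraMap κ' κ₁)) (ofPowerSeries ℚ κ' z) =
      ofPowerSeries ℚ P (PowerSeries.map cA (PowerSeries.map (algebraMap κ' κ₁) z))
    ext1
    funext a
    change cA (algebraMap κ' κ₁ ((ofPowerSeries ℚ κ' z).coeff a)) = _
    by_cases ha : ∃ n : ℕ, a = n
    · obtain ⟨n, rfl⟩ := ha
      rw [ofPowerSeries_apply_coeff, ofPowerSeries_apply_coeff, PowerSeries.coeff_map,
        PowerSeries.coeff_map]
    · have h1 : (ofPowerSeries ℚ P (PowerSeries.map cA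
          (PowerSeries.map (algebraMap κ' κ₁) z))).coeff a = 0 := by
        by_contra h
        exact ha (hofne _ _ h)
      have h2 : (ofPowerSeries ℚ κ' z).coeff a = 0 := by
        by_contra h
        apply ha
        have h3 : a ∈ (ofPowerSeries ℚ κ' z).support := h
        obtain ⟨n, -, hn⟩ := support_embDomain_subset h3
        exact ⟨n, by rw [← hn]; simp⟩
      rw [h1, h2, map_zero, map_zero]
  · -- coefficientwise automorphisms
    intro ρ hρ'
    have hρ : ∀ c : κ, ρ (algebraMap κ κ₁ c) = algebraMap κ κ₁ c := fun c => by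
      rw [IsScalarTower.algebraMap_apply κ κ' κ₁]
      exact hρ' _
    obtain ⟨R1, hR1⟩ := exists_hmap ρ
    obtain ⟨ρA, hρA⟩ := exists_restr hP R1 (fun x a => by
      rw [hR1]
      exact (map_ne_zero_iff _ ρ.injective))
    obtain ⟨R2, hR2⟩ := exists_hmap ρA
    obtain ⟨ρS, hρS⟩ := exists_restr hP' R2 (fun x a => by
      rw [hR2]
      exact (map_ne_zero_iff _ ρA.injective))
    have hρc : ∀ c, ρA (cA c) = cA (ρ c) := by
      intro c
      apply Subtype.ext
      rw [hρA]
      ext a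
      rw [hR1, hcA, hcA]
      by_cases ha : a = 0
      · rw [ha, C_apply, C_apply, coeff_single_same, coeff_single_same]
      · rw [C_apply, C_apply, coeff_single_of_ne ha, coeff_single_of_ne ha, map_zero]
    refine ⟨ρA, ρS, hρc, ?_, ?_, ?_, ?_⟩
    · intro l
      apply Subtype.ext
      rw [hρA]
      ext a
      rw [hR1, hlA, hρ]
    · intro z
      apply Subtype.ext
      rw [hρS, hψ, hψ]
      ext1
      funext a
      rw [hR2, hofmap]
      rfl
    · intro y
      have hcomm : ∀ x : P, τA (ρA x) = ρA (τA x) := by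
        intro x
        apply Subtype.ext
        rw [hτA, hρA, hρA, hτA]
        ext a
        rw [hRt, hR1, hR1, hRt, map_mul, hρ]
      apply Subtype.ext
      rw [hτS, hρS, hρS, hτS]
      ext1
      funext a
      rw [hRτ, hR2, hR2, hRτ, hcomm]
    · intro y hy
      obtain ⟨x, rfl⟩ := mem_range_of_alg J' hy
      apply Subtype.ext
      rw [hρS]
      ext1
      funext a
      rw [hR2]
      change ρA (cA (algebraMap κ' κ₁ ((x : HahnSeries ℚ κ').coeff a))) = _
      rw [hρc, hρ']
      rfl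

end Pool.Agent.OPG
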