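import Pool.Agent.Helper77.OPG.K1
import Pool.Agent.Helper77.OPG.Hahn

/-!
# Project OPG: the fields `κ ≤ κ' ≤ κ₁` (A1, A2: proved in `K1`, `Hahn`)
-/
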