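import Pool.Agent.Helper37.PC.K1

/-!
# Project OPG: the algebraically closed fields `κ ≤ κ' ≤ κ₁` with the generic roots
-/

universe u

namespace Pool.Agent.OPG

open Polynomial Cardinal Pool.Agent.PC

/-- The algebraic closure of `κ(Γ, X)`: the coefficients of `∏ (y - Γ i)` and the `b i + X i` are
algebraically independent, and permutations of the `Γ i` are induced by automorphisms. -/
theorem exists_K1' (κ : Type u) [Field κ] {d : ℕ} {ι : Type} [Fintype ι]
    [DecidableEq ι] (a : Fin d → ι) (ha : Function.Injective a) (b : ι → κ) :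
    ∃ (κ' κ₁ : Type u) (_ : Field κ') (_ : Field κ₁) (_ : Algebra κ κ') (_ : Algebra κ' κ₁)
      (_ : Algebra κ κ₁) (_ : IsScalarTower κ κ' κ₁) (Γ : Fin d → κ₁) (x ξ : ι → κ₁),
      IsAlgClosed κ' ∧ IsAlgClosed κ₁ ∧ AlgebraicIndependent κ Γ ∧
      (∀ j, ξ (a j) = (∏ i, (X - Polynomial.C (Γ i))).coeff j) ∧
      (∀ i, (∀ j, a j ≠ i) → ξ i = algebraMap κ κ₁ (b i) + x i) ∧
      AlgebraicIndependent κ ξ ∧
      (∀ i, ∃ x' : κ', algebraMap κ' κ₁ x' = x i) ∧
      ∀ e : Equiv.Perm (Fin d), ∃ ρ : κ₁ ≃+* κ₁,
        (∀ c : κ', ρ (algebraMap κ' κ₁ c) = algebraMap κ' κ₁ c) ∧ ∀ i, ρ (Γ i) = Γ (e i) := by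
  classical
  let I' := {i : ι // ∀ j, a j ≠ i}
  obtain ⟨L', iF', iA', g', hcl', hg', -⟩ := exists_L1.{u} κ I'
  obtain ⟨L, iF, iA1, g₁, hcl, hg₁, hperm⟩ := exists_L1.{u} L' (Fin d)
  let iA : Algebra κ L := ((algebraMap L' L).comp (algebraMap κ L')).toAlgebra
  have iT : IsScalarTower κ L' L := IsScalarTower.of_algebraMap_eq fun _ => rfl
  let g : Fin d ⊕ I' → L := Sum.elim g₁ (algebraMap L' L ∘ g')
  have hg : IsTranscendenceBasis κ g := hg'.sumElim_comp hg₁
  let Γ : Fin d → L := fun i => g (Sum.inl i)
  let x : ι → L := fun i => if h : ∀ j, a j ≠ i then g (Sum.inr ⟨i, h⟩) else 0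
  let ξ : ι → L := fun i => if h : ∃ j, a j = i then (∏ i, (X - C (Γ i))).coeff h.choose
    else algebraMap κ L (b i) + x i
  have hξa : ∀ j, ξ (a j) = (∏ i, (X - C (Γ i))).coeff j := by
    intro j
    have h : ∃ j', a j' = a j := ⟨j, rfl⟩
    simp only [ξ]
    rw [dif_pos h, ha h.choose_spec]
  have hξb : ∀ i, (∀ j, a j ≠ i) → ξ i = algebraMap κ L (b i) + x i := by
    intro i hi
    simp only [ξ]
    rw [dif_neg]
    rintro ⟨j, hj⟩
    exact hi j hj
  refine ⟨L', L, iF', iF, iA', iA1, iA, iT, Γ, x, ξ, hcl', hcl, hg.1.comp _ Sum.inl_injective, hξa,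
    hξb, ?_, ?_, ?_⟩
  · -- independence
    refine algInd_of_exchange ?_ hg ?_
    · -- cardinalities
      let f : ι → Fin d ⊕ I' := fun i => if h : ∃ j, a j = i then Sum.inl h.choose else
        Sum.inr ⟨i, fun j hj => h ⟨j, hj⟩⟩
      refine Fintype.card_le_of_injective f ?_
      intro i i' hii
      simp only [f] at hii
      by_cases h : ∃ j, a j = i
      · by_cases h' : ∃ j, a j = i'
        · rw [dif_pos h, dif_pos h'] at hii
          have h1 := Sum.inl_injective hii
          rw [← h.choose_spec, ← h'.choose_spec, h1]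
        · rw [dif_pos h, dif_neg h'] at hii
          exact absurd hii (by simp)
      · by_cases h' : ∃ j, a j = i'
        · rw [dif_neg h, dif_pos h'] at hii
          exact absurd hii (by simp)
        · rw [dif_neg h, dif_neg h'] at hii
          exact congrArg Subtype.val (Sum.inr_injective hii)
    · rintro (i | i)
      · -- the roots
        let B := IntermediateField.adjoin κ (Set.range ξ)
        let c : Fin d → B := fun j => ⟨ξ (a j), IntermediateField.subset_adjoin _ _ ⟨a j, rfl⟩⟩
        have hprod : (∏ i, (X - C (Γ i))) = X ^ d + ∑ j : Fin d, C (ξ (a j)) * X ^ (j : ℕ) := by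
          have hm : (∏ i : Fin d, (X - C (Γ i))).Monic := monic_prod_of_monic _ _ fun i _ =>
            monic_X_sub_C _
          have hdeg : (∏ i : Fin d, (X - C (Γ i))).natDegree = d := by
            rw [natDegree_prod_of_monic _ _ fun i _ => monic_X_sub_C _]
            simp
          have h1 := as_sum_range' (∏ i : Fin d, (X - C (Γ i))) (d + 1) (by
            rw [hdeg]; exact Nat.lt_succ_self d)
          rw [h1, Finset.sum_range_succ, add_comm]
          congr 1
          · rw [← C_mul_X_pow_eq_monomial]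
            have h1 := hm.coeff_natDegree
            rw [hdeg] at h1
            rw [h1, map_one, one_mul]
          · rw [Finset.sum_range]
            apply Finset.sum_congr rfl
            intro j _
            rw [hξa, ← C_mul_X_pow_eq_monomial]
        let F : B[X] := X ^ d + ∑ j : Fin d, C (c j) * X ^ (j : ℕ)
        refine ⟨F, ?_, ?_⟩
        · apply Monic.ne_zero
          exact monic_X_pow_add (degree_sum_fin_lt _)
        · have h1 : aeval (Γ i) F = eval (Γ i) (∏ i, (X - C (Γ i))) := by
            rw [hprod]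
            simp only [F, map_add, map_pow, aeval_X, map_sum, map_mul, aeval_C, eval_add, eval_pow,
              eval_X, eval_finsetSum, eval_mul, eval_C]
            rfl
          change aeval (Γ i) F = 0
          rw [h1, eval_prod]
          exact Finset.prod_eq_zero (Finset.mem_univ i) (by simp)
      · have h3 : g (Sum.inr i) = x i := by
          simp only [x]
          rw [dif_pos i.2]
        have h4 : x i = ξ i - algebraMap κ L (b i) := by
          rw [hξb i i.2]
          ring
        have h5 : x i ∈ IntermediateField.adjoin κ (Set.range ξ) := by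
          rw [h4]
          exact sub_mem (IntermediateField.subset_adjoin _ _ ⟨i, rfl⟩)
            (IntermediateField.algebraMap_mem _ _)
        rw [h3]
        exact isAlgebraic_algebraMap (R := IntermediateField.adjoin κ (Set.range ξ))
          (A := L) (⟨x i, h5⟩ : IntermediateField.adjoin κ (Set.range ξ))
  · intro i
    simp only [x]
    by_cases h : ∀ j, a j ≠ i
    · rw [dif_pos h]
      exact ⟨g' ⟨i, h⟩, rfl⟩
    · rw [dif_neg h]
      exact ⟨0, map_zero _⟩
  · -- permutations
    intro e
    obtain ⟨ρ, hρ, hρg⟩ := hperm e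
    exact ⟨ρ, hρ, fun i => hρg i⟩

end Pool.Agent.OPG
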